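import Pool.Agent.Lib.MP_28691e_co.Main

namespace Pool.Agent.Results.MP_28691e_co.ThreeColours

open Pool.Agent.Lib.MP_28691e_co

/-- Every `2 → 1` hypergraph (finite or infinite) that avoids `I₀` has a proper colouring with
three colours; moreover the colours of all vertices that are not heads may be prescribed. -/
theorem result {V : Type*} [DecidableEq V] (H : TwoOneHypergraph V) (hH : H.AvoidsI0)
    (c₀ : V → Fin 3) :
    ∃ c : V → Fin 3, H.IsProper c ∧ ∀ v, (∀ e ∈ H.edges, e.2 ≠ v) → c v = c₀ v :=
  main H hH c₀

end Pool.Agent.Results.MP_28691e_co.ThreeColours
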